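import Pool.Agent.Helper76.Flat.Exists
import Pool.Agent.Helper76.Flat.ToRS

set_option autoImplicit false

open Pool.Agent.Helper76.Flat

namespace Pool.Agent.Results.MP_9ddbc6_gt.FiniteAreaIsom

/-- Let `S` be a (connected, Hausdorff, second countable) surface of infinite type and `G` a group.
There is a translation structure of finite area on `S` whose isometry group is isomorphic to `G` if
and only if `G` is finite and acts faithfully by isometries on some translation structure on `S`
(of possibly infinite area), if and only if `G` is finite and acts faithfully by holomorphic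
automorphisms for some Riemann surface structure on `S`. -/
theorem result {S : Type*} [TopologicalSpace S] [T2Space S] [ConnectedSpace S]
    [SecondCountableTopology S] (hS : InfiniteType S) {G : Type*} [Group G] :
    List.TFAE [
      ∃ M : TranslationStructure S, M.FiniteArea ∧ Nonempty (M.Isom ≃* G),
      Finite G ∧ ∃ M : TranslationStructure S, ∃ i : G →* M.Isom, Function.Injective i,
      Finite G ∧ ∃ X : RiemannSurfaceStructure S, ∃ ρ : G →* (S ≃ₜ S), Function.Injective ρ ∧
        ∀ g, X.IsHolomorphic (ρ g)] := by
  tfae_have 1 → 2 := by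
    rintro ⟨M, hM, ⟨f⟩⟩
    have hfin : Finite M.Isom := TranslationStructure.finite_isom hS hM
    exact ⟨Finite.of_equiv _ f.toEquiv, M, f.symm.toMonoidHom, f.symm.injective⟩
  tfae_have 2 → 3 := by
    rintro ⟨hG, M, i, hi⟩
    refine ⟨hG, M.toRS, M.Isom.subtype.comp i, M.Isom.subtype_injective.comp hi, fun g => ?_⟩
    obtain ⟨lam, -, h⟩ := (i g).2
    exact h.isHolomorphic
  tfae_have 3 → 1 := by
    rintro ⟨hG, X, ρ, hinj, hρ⟩
    obtain ⟨N, hN, hiso⟩ := exists_structure_of_action hS X ρ hinj hρ
    refine ⟨N, hN, ⟨?_⟩⟩
    rw [hiso]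
    exact (MonoidHom.ofInjective hinj).symm
  tfae_finish

end Pool.Agent.Results.MP_9ddbc6_gt.FiniteAreaIsom
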